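import Pool.Agent.Y535.PEG.StmB

/-! The signed distance of a simple polygon has the same sign on the left of all its edges. -/

set_option autoImplicit false
open Complex Set Topology Metric

namespace Pool.Agent.Y407.PEG

open Pool.Agent.H763R2 Pool.Agent.H763R2.An Pool.Agent.W675.Peg Pool.Agent.TH569.Peg
open Pool.Agent.H763R2.Dm (NoSq floor_const)
open Pool.Agent.Y535.PEG

variable {q : ℝ → ℂ} {θ : ℝ → ℝ → ℝ}

theorem fibInj (L : Loop q) (J : Inj q) {t t' : ℝ} (h : q t' = q t) : ∃ n : ℤ, t' = t + n := by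
  refine ⟨⌊t' - t⌋, ?_⟩
  by_contra hne
  have h0 := Int.fract_nonneg (t' - t)
  have h1 := Int.fract_lt_one (t' - t)
  have h2 : t' - t - ⌊t' - t⌋ = Int.fract (t' - t) := Int.self_sub_floor _
  have h3 : 0 < Int.fract (t' - t) := lt_of_le_of_ne h0 (fun h => hne (by linarith))
  have h4 := L.per_int (t' - ⌊t' - t⌋) ⌊t' - t⌋
  rw [sub_add_cancel] at h4
  exact J t (t' - ⌊t' - t⌋) (by linarith) (by linarith) (h.symm.trans h4)

theorem cr_eq (e ζ : ℂ) : (starRingEnd ℂ e * ζ).im = An.cr e ζ := by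
  unfold An.cr
  simp only [mul_im, conj_re, conj_im]
  ring

theorem conj_pos {e : ℂ} (he : e ≠ 0) : 0 < (starRingEnd ℂ e * e).re := by
  have h := Complex.normSq_pos.2 he
  rw [Complex.normSq_apply] at h
  simp only [mul_re, conj_re, conj_im]
  linarith

theorem corL (L : Loop q) (J : Inj q) {t : ℝ} {e : ℂ} {η : ℝ} (he : e ≠ 0) (hη : 0 < η)
    (hl : Lin q t e η) : Cor q t e e (starRingEnd ℂ e) η where
  he := conj_pos he
  hf := conj_pos he
  hη := hη
  fwd := fun s hs => hl s (by rw [abs_of_nonneg hs.1]; exact hs.2)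
  bwd := fun s hs => by
    have h := hl (-s) (by rw [abs_neg, abs_of_nonneg hs.1]; exact hs.2)
    rw [show t - s = t + -s by ring, h]
    push_cast
    ring
  fib := fun _ h => fibInj L J h

theorem sgL (L : Loop q) (J : Inj q) {t : ℝ} {e : ℂ} {η : ℝ} (he : e ≠ 0) (hη : 0 < η)
    (hl : Lin q t e η) : ∃ R > 0, ∃ τ : ℝ, (τ = 1 ∨ τ = -1) ∧ ∀ ζ : ℂ, ‖ζ‖ < R →
      (0 < An.cr e ζ → 0 < τ * mgc q (q t + ζ)) ∧
      (An.cr e ζ < 0 → τ * mgc q (q t + ζ) < 0) ∧ (An.cr e ζ = 0 → mgc q (q t + ζ) = 0) := by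
  obtain ⟨R, hR, τ, hτ, H⟩ := (corL L J he hη hl).sign L
  refine ⟨R, hR, τ, hτ, fun ζ hζ => ?_⟩
  have h1 := H (q t + ζ) (by rw [add_sub_cancel_left]; exact hζ)
  have hs : slp (starRingEnd ℂ e) e = 0 := by
    unfold slp
    rw [cr_eq, An.cr_self, zero_div]
  have h2 : hN (q t) (starRingEnd ℂ e) (slp (starRingEnd ℂ e) e) (slp (starRingEnd ℂ e) e)
      (q t + ζ) = An.cr e ζ := by
    unfold hN fc
    rw [hs, add_sub_cancel_left, cr_eq]
    ring
  rw [h2] at h1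
  exact h1

/-- the number of half turns of short chords near a straight point gives the sign -/
theorem klL {η0 : ℝ} (hη0 : 0 < η0) (A : LA q η0 θ) {t : ℝ} {e : ℂ} {η : ℝ} (he : e ≠ 0)
    (hη : 0 < η) (hl : Lin q t e η) {R τ : ℝ} (hR : 0 < R) (hτ : τ = 1 ∨ τ = -1)
    (H : ∀ ζ : ℂ, ‖ζ‖ < R → 0 < An.cr e ζ → 0 < τ * mgc q (q t + ζ)) :
    ∃ k : ℤ, KL θ t k ∧ τ = (-1) ^ k := by
  have hen : 0 < ‖e‖ := norm_pos_iff.2 he
  obtain ⟨ρ, hρ, r1, r2, r3⟩ : ∃ ρ > 0, ρ ≤ η ∧ 2 * ρ ≤ η0 ∧ 3 * (ρ * ‖e‖) ≤ R := by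
    refine ⟨min η (min (η0 / 2) (R / (3 * ‖e‖))), by positivity, min_le_left _ _, ?_, ?_⟩
    · have := (min_le_right η (min (η0 / 2) (R / (3 * ‖e‖)))).trans (min_le_left _ _)
      linarith
    · have := (min_le_right η (min (η0 / 2) (R / (3 * ‖e‖)))).trans (min_le_right _ _)
      rw [le_div_iff₀ (by positivity)] at this
      linarith
  have hcc : ∀ x y : ℝ, |x - t| < ρ → |y - t| < ρ → x < y → 0 < τ * mgc q (CC q x y) := by
    intro x y hx hy hxy
    have lx : q x = q t + ((x - t : ℝ) : ℂ) * e := by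
      have := hl (x - t) (hx.le.trans r1)
      rwa [add_sub_cancel] at this
    have ly : q y = q t + ((y - t : ℝ) : ℂ) * e := by
      have := hl (y - t) (hy.le.trans r1)
      rwa [add_sub_cancel] at this
    have h1 := CC_lin lx ly
    have h2 : CC q x y = q t + (((y - t : ℝ) : ℂ) * e + (((y - t) - (x - t) : ℝ) : ℂ) * (I * e)) := by
      rw [← h1]; ring
    rw [h2]
    apply H
    · refine (norm_add_le _ _).trans_lt ?_
      rw [norm_mul, norm_mul, norm_mul, norm_I, one_mul, norm_real, norm_real, Real.norm_eq_abs,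
        Real.norm_eq_abs]
      have h3 : |y - t| * ‖e‖ < ρ * ‖e‖ := mul_lt_mul_of_pos_right hy hen
      have h4 : |y - t - (x - t)| ≤ |y - t| + |x - t| := abs_sub _ _
      have h5 : |y - t - (x - t)| * ‖e‖ < (2 * ρ) * ‖e‖ :=
        mul_lt_mul_of_pos_right (by linarith) hen
      linarith
    · have h6 : An.cr e (((y - t : ℝ) : ℂ) * e + (((y - t) - (x - t) : ℝ) : ℂ) * (I * e)) =
          (y - x) * (e.re * e.re + e.im * e.im) := by
        rw [An.cr_add, An.cr_smul, An.cr_smul, An.cr_self]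
        unfold An.cr
        simp only [I_mul_re, I_mul_im]
        ring
      rw [h6]
      have h7 := Complex.normSq_pos.2 he
      rw [Complex.normSq_apply] at h7
      exact mul_pos (by linarith) h7
  have hex : ∀ x y : ℝ, |x - t| < ρ → |y - t| < ρ → x < y → 0 < τ * Real.sin (θ x y) := by
    intro x y hx hy hxy
    have hs := Tri_Strip (s := t) (ρ := ρ) (η := η0) r2 (show (x, y) ∈ Tri t ρ from ⟨hx, hy, hxy⟩)
    obtain ⟨r, hr, -, e2⟩ := A.ex x y hs.1 hs.2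
    have h1 := hcc x y hx hy hxy
    rw [e2] at h1
    have h2 : 0 < r * (τ * Real.sin (θ x y)) := by linarith
    exact (mul_pos_iff_of_pos_left hr).1 h2
  obtain ⟨x0, y0, hx0, hy0, hxy0⟩ := pair_near (s := t) hρ
  refine ⟨⌊θ x0 y0 / Real.pi⌋, ⟨ρ, hρ, fun x y hx hy hxy => ?_⟩, ?_⟩
  · refine floor_pre (Tri_pre t ρ) (f := fun p => θ p.1 p.2) (A.cont.mono (Tri_Strip r2))
      (fun p hp => ?_) (z := (x, y)) (w := (x0, y0)) ⟨hx, hy, hxy⟩ ⟨hx0, hy0, hxy0⟩
    exact right_ne_zero_of_mul (hex p.1 p.2 hp.1 hp.2.1 hp.2.2).ne'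
  · have h1 := hex x0 y0 hx0 hy0 hxy0
    set k := ⌊θ x0 y0 / Real.pi⌋ with hk
    have h2 : 0 ≤ (-1) ^ k * Real.sin (θ x0 y0) := by
      rw [← Real.sin_sub_int_mul_pi]
      apply Real.sin_nonneg_of_nonneg_of_le_pi
      · have := Int.floor_le (θ x0 y0 / Real.pi)
        rw [le_div_iff₀ Real.pi_pos] at this
        linarith
      · have := (Int.lt_floor_add_one (θ x0 y0 / Real.pi)).le
        rw [div_le_iff₀ Real.pi_pos] at this
        linarith
    rcases Int.even_or_odd k with hk2 | hk2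
    · rw [hk2.neg_one_zpow] at h2 ⊢
      rcases hτ with h | h
      · exact h
      · rw [h] at h1; linarith
    · rw [hk2.neg_one_zpow] at h2 ⊢
      rcases hτ with h | h
      · rw [h] at h1; linarith
      · exact h

/-- the signed distance of a simple polygon has the same sign on the left of all its edges -/
theorem sgU : S_SG := by
  intro q hG hP J
  have L := hG.L
  obtain ⟨η0, hη0, sh, -⟩ := short hG
  obtain ⟨θ, A⟩ := exLA L hη0 sh
  have loc : ∀ (t : ℝ) (e : ℂ) (η : ℝ), e ≠ 0 → 0 < η → Lin q t e η →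
      ∃ τ : ℝ, (τ = 1 ∨ τ = -1) ∧ (∃ R > 0, ∀ ζ : ℂ, ‖ζ‖ < R →
        (0 < An.cr e ζ → 0 < τ * mgc q (q t + ζ)) ∧
        (An.cr e ζ < 0 → τ * mgc q (q t + ζ) < 0) ∧ (An.cr e ζ = 0 → mgc q (q t + ζ) = 0)) ∧
      ∃ k : ℤ, KL θ t k ∧ τ = (-1) ^ k := by
    intro t e η he hη hl
    obtain ⟨R, hR, τ, hτ, H⟩ := sgL L J he hη hl
    exact ⟨τ, hτ, ⟨R, hR, H⟩, klL hη0 A he hη hl hR hτ (fun ζ hζ => (H ζ hζ).1)⟩
  have cst : ∀ (t t' : ℝ) (k k' : ℤ), t ≤ t' → KL θ t k → KL θ t' k' → k = k' := by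
    intro t t' k k' htt hk hk'
    refine const_Icc (P := KL θ) (fun s k k' h h' => h.uniq h') (fun s k h => h.loc) htt
      (fun s _ => ?_) hk hk'
    obtain ⟨e, f, w, η', H⟩ := exCor L hP (s := s) (fun z hz => fibInj L J hz)
    obtain ⟨ρ, hρ, k, hk⟩ := H.half L hη0 A
    exact ⟨k, ρ, hρ, hk⟩
  by_cases hex : ∃ (t : ℝ) (e : ℂ) (η : ℝ), e ≠ 0 ∧ 0 < η ∧ Lin q t e η
  · obtain ⟨t0, e0, η1, he0, hη1, hl0⟩ := hex
    obtain ⟨τ0, hτ0, -, k0, hk0, hτk0⟩ := loc t0 e0 η1 he0 hη1 hl0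
    refine ⟨τ0, hτ0, fun t e η he hη hl => ?_⟩
    obtain ⟨τ, hτ, hR, k, hk, hτk⟩ := loc t e η he hη hl
    have hkk : k = k0 := by
      rcases le_total t t0 with h | h
      · exact cst t t0 k k0 h hk hk0
      · exact (cst t0 t k0 k h hk0 hk).symm
    have : τ = τ0 := by rw [hτk, hτk0, hkk]
    rw [← this]
    exact hR
  · refine ⟨1, Or.inl rfl, fun t e η he hη hl => ?_⟩
    exact absurd ⟨t, e, η, he, hη, hl⟩ hex

end Pool.Agent.Y407.PEG
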